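import Pool.Agent.H648.Q.Defs

/-!
# Contraction lemma for mean squares (part CTR of the project Q648)
-/

set_option autoImplicit false

namespace Pool.Agent.H337.Q648

open Finset Filter
open Pool.Agent.H376R2.MR (FK Fj lam)
open Pool.Agent.H648.Q

lemma FK_mono {K K' : ℕ} (h : K ≤ K') : (FK K).erase 0 ⊆ (FK K').erase 0 := by
  intro k hk
  rw [Finset.mem_erase] at hk ⊢
  refine ⟨hk.1, ?_⟩
  have h2 := hk.2
  unfold FK at h2 ⊢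
  rw [Finset.mem_Ioo] at h2 ⊢
  constructor <;> omega

lemma MRq_mono {F : ℝ → ℤ → ℂ} {η η' : ℝ} (h : MRq F η) (hη : η ≤ η') : MRq F η' := by
  obtain ⟨a, ha, Y₀, hY⟩ := h
  exact ⟨a, ha, Y₀, fun Y h => (hY Y h).trans hη⟩

lemma norm_three (a b c : ℂ) (t : ℝ) (ht0 : 0 ≤ t) (ht : t ≤ 1 / 4) (T : ℂ) (hT : ‖T‖ = t) :
    ‖a - T * (b - c)‖ ^ 2 ≤ 3 * ‖a‖ ^ 2 + 3 / 16 * ‖b‖ ^ 2 + 3 / 16 * ‖c‖ ^ 2 := by
  have h1 : ‖a - T * (b - c)‖ ≤ ‖a‖ + (t * ‖b‖ + t * ‖c‖) := by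
    refine (norm_sub_le _ _).trans ?_
    rw [norm_mul, hT, ← mul_add]
    have := norm_sub_le b c
    gcongr
  have h2 : t * ‖b‖ ≤ 1 / 4 * ‖b‖ := mul_le_mul_of_nonneg_right ht (norm_nonneg b)
  have h3 : t * ‖c‖ ≤ 1 / 4 * ‖c‖ := mul_le_mul_of_nonneg_right ht (norm_nonneg c)
  have h4 : ‖a - T * (b - c)‖ ≤ ‖a‖ + 1 / 4 * ‖b‖ + 1 / 4 * ‖c‖ := by linarith
  have h5 : ‖a - T * (b - c)‖ ^ 2 ≤ (‖a‖ + 1 / 4 * ‖b‖ + 1 / 4 * ‖c‖) ^ 2 :=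
    pow_le_pow_left₀ (norm_nonneg _) h4 2
  refine h5.trans ?_
  nlinarith [sq_nonneg (‖a‖ - 1 / 4 * ‖b‖), sq_nonneg (‖a‖ - 1 / 4 * ‖c‖),
    sq_nonneg (1 / 4 * ‖b‖ - 1 / 4 * ‖c‖)]

lemma sum_le_of_MR {F : ℝ → ℤ → ℂ} {η h Y₀ Z : ℝ}
    (hF : ∀ Y : ℝ, Y₀ ≤ Y → ∑ k ∈ (FK ⌊Y / h⌋₊).erase 0, ‖F Y k‖ ^ 2 ≤ η)
    (hZ : Y₀ ≤ Z) (K : ℕ) (hK : K ≤ ⌊Z / h⌋₊) :
    ∑ k ∈ (FK K).erase 0, ‖F Z k‖ ^ 2 ≤ η :=
  (Finset.sum_le_sum_of_subset_of_nonneg (FK_mono hK) fun _ _ _ => sq_nonneg _).trans (hF Z hZ)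

lemma step (F F' G : ℝ → ℤ → ℂ) (p : ℕ) (hp : 2 ≤ p) (hF : ∀ η : ℝ, 0 < η → MRq F η)
    (hF' : ∀ η : ℝ, 0 < η → MRq F' η)
    (hrec : ∀ Y : ℝ, 0 < Y → ∀ k : ℤ, G Y k = F Y k -
      (1 / (p : ℂ) ^ 2) * (F' (Y / (p : ℝ) ^ 2) k - G (Y / (p : ℝ) ^ 2) k))
    (η : ℝ) (hη : 0 < η) (hG : MRq G η) : MRq G (η / 4) := by
  obtain ⟨h1, hh1, Y1, hY1⟩ := hF (η / 60) (by positivity)
  obtain ⟨h2, hh2, Y2, hY2⟩ := hF' (η / 60) (by positivity)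
  obtain ⟨h3, hh3, Y3, hY3⟩ := hG
  set P : ℝ := (p : ℝ) ^ 2 with hP
  have hp2 : (2 : ℝ) ≤ p := by exact_mod_cast hp
  have hP4 : 4 ≤ P := by rw [hP]; nlinarith
  have hP0 : 0 < P := by linarith
  set h : ℝ := max h1 (P * max h2 h3) with hh
  have hle1 : h1 ≤ h := le_max_left _ _
  have hle2 : P * h2 ≤ h := (mul_le_mul_of_nonneg_left (le_max_left _ _) hP0.le).trans
    (le_max_right _ _)
  have hle3 : P * h3 ≤ h := (mul_le_mul_of_nonneg_left (le_max_right _ _) hP0.le).trans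
    (le_max_right _ _)
  refine ⟨h, hh1.trans hle1, max (max Y1 (P * Y2)) (max (P * Y3) 1), fun Y hY => ?_⟩
  have hYa : Y1 ≤ Y := ((le_max_left _ _).trans (le_max_left _ _)).trans hY
  have hYb : P * Y2 ≤ Y := ((le_max_right _ _).trans (le_max_left _ _)).trans hY
  have hYc : P * Y3 ≤ Y := ((le_max_left _ _).trans (le_max_right _ _)).trans hY
  have hYd : 1 ≤ Y := ((le_max_right _ _).trans (le_max_right _ _)).trans hY
  have hY0 : 0 < Y := by linarith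
  have hYb' : Y2 ≤ Y / P := by rw [le_div_iff₀ hP0]; linarith
  have hYc' : Y3 ≤ Y / P := by rw [le_div_iff₀ hP0]; linarith
  set K := ⌊Y / h⌋₊ with hK
  have hK1 : K ≤ ⌊Y / h1⌋₊ :=
    Nat.floor_le_floor (div_le_div_of_nonneg_left hY0.le (by linarith) hle1)
  have hK2 : K ≤ ⌊(Y / P) / h2⌋₊ := by
    rw [div_div]
    exact Nat.floor_le_floor (div_le_div_of_nonneg_left hY0.le (by positivity) hle2)
  have hK3 : K ≤ ⌊(Y / P) / h3⌋₊ := by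
    rw [div_div]
    exact Nat.floor_le_floor (div_le_div_of_nonneg_left hY0.le (by positivity) hle3)
  have s1 := sum_le_of_MR hY1 hYa K hK1
  have s2 := sum_le_of_MR hY2 hYb' K hK2
  have s3 := sum_le_of_MR hY3 hYc' K hK3
  have hT : ‖(1 / (p : ℂ) ^ 2)‖ = 1 / P := by
    rw [norm_div, norm_one, norm_pow, Complex.norm_natCast]
  have hT4 : 1 / P ≤ 1 / 4 := one_div_le_one_div_of_le (by norm_num) hP4
  calc ∑ k ∈ (FK K).erase 0, ‖G Y k‖ ^ 2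
      ≤ ∑ k ∈ (FK K).erase 0, (3 * ‖F Y k‖ ^ 2 + 3 / 16 * ‖F' (Y / P) k‖ ^ 2 +
          3 / 16 * ‖G (Y / P) k‖ ^ 2) := by
        refine Finset.sum_le_sum fun k _ => ?_
        rw [hrec Y hY0 k]
        exact norm_three _ _ _ (1 / P) (by positivity) hT4 _ hT
    _ = 3 * ∑ k ∈ (FK K).erase 0, ‖F Y k‖ ^ 2 +
          3 / 16 * ∑ k ∈ (FK K).erase 0, ‖F' (Y / P) k‖ ^ 2 +
          3 / 16 * ∑ k ∈ (FK K).erase 0, ‖G (Y / P) k‖ ^ 2 := by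
        rw [Finset.sum_add_distrib, Finset.sum_add_distrib, ← Finset.mul_sum, ← Finset.mul_sum,
          ← Finset.mul_sum]
    _ ≤ η / 4 := by linarith

theorem ctr : S_CTR := by
  intro F F' G p hp hF hF' hG hrec η hη
  obtain ⟨C, hC⟩ := hG
  have hC1 : MRq G (max C 1) := MRq_mono hC (le_max_left _ _)
  have hpos : 0 < max C 1 := lt_of_lt_of_le one_pos (le_max_right _ _)
  have hn : ∀ n : ℕ, MRq G (max C 1 / 4 ^ n) := by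
    intro n
    induction n with
    | zero => simpa using hC1
    | succ n ih =>
      have := step F F' G p hp hF hF' hrec _ (by positivity) ih
      rwa [div_div, ← pow_succ] at this
  obtain ⟨n, hn2⟩ := pow_unbounded_of_one_lt (max C 1 / η) (by norm_num : (1 : ℝ) < 4)
  refine MRq_mono (hn n) ?_
  rw [div_lt_iff₀ hη] at hn2
  rw [div_le_iff₀ (by positivity)]
  linarith

end Pool.Agent.H337.Q648

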